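import Pool.Agent.FR106.Spectral

/-!
# Proper fractional revival with classes not closed under algebraic conjugates

The graph `Pool.Agent.FR106.X` on `66` vertices has proper fractional revival on `{0, 1}`.  The
eigenvalue `4 + 4 φ = 6 + 2 √5` lies in `C⁺`, its conjugate `4 + 4 ψ = 6 - 2 √5` lies in `C⁻`.
-/

namespace Pool.Agent.Results.MP_d93d44_co.NotConjugateClosed

open Pool.Agent.FR106 Polynomial goldenRatio

section defs
variable {V : Type} [Fintype V] [DecidableEq V]

/-- Proper fractional revival on `{a, b}` at time `t`. -/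
def ProperFRAt (Y : SimpleGraph V) [DecidableRel Y.Adj] (a b : V) (t : ℝ) : Prop :=
  (∀ c, c ≠ a → c ≠ b → U Y t a c = 0 ∧ U Y t b c = 0) ∧ U Y t a b ≠ 0

/-- The set `C⁺`. -/
def Cplus (Y : SimpleGraph V) [DecidableRel Y.Adj] (a b : V) : Set ℝ := {θ | 0 < entry Y θ a b}

/-- The set `C⁻`. -/
def Cminus (Y : SimpleGraph V) [DecidableRel Y.Adj] (a b : V) : Set ℝ := {θ | entry Y θ a b < 0}

end defs

/-- `S` contains every complex root of the minimal polynomial over `ℚ` of each of its elements. -/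
def ConjClosed (S : Set ℝ) : Prop :=
  ∀ θ ∈ S, ∀ z : ℂ, aeval z (minpoly ℚ θ) = 0 → ∃ θ' ∈ S, (θ' : ℂ) = z

/-! ### Fractional revival -/

theorem U_symm (t : ℝ) (a b : Fin 66) : U X t a b = U X t b a := by
  have h : (U X t).transpose = U X t := by
    unfold U
    rw [← Matrix.exp_transpose, Matrix.transpose_smul, SimpleGraph.transpose_adjMatrix]
  exact (congrFun (congrFun h b) a)

theorem row (r : ℝ) (hr : r ^ 2 = r + 1) (c : Fin 66) :
    U X τ c 0 + (r : ℂ) * U X τ c 1 =
      Complex.exp (Complex.I * (τ * (4 + 4 * r))) * fn (r : ℂ) 1 0 0 c := by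
  have h := congrFun (U_fn r hr) c
  rw [Pi.smul_apply, smul_eq_mul] at h
  rw [← h]
  conv_rhs => rw [fn_one]
  rw [Matrix.mulVec_add, Matrix.mulVec_smul, Matrix.mulVec_single_one, Matrix.mulVec_single_one]
  simp

theorem proper_at : ProperFRAt X 0 1 τ := by
  obtain ⟨b1, b2⟩ := sqrt5_bounds
  have hd : (((φ : ℝ) : ℂ) - ((ψ : ℝ) : ℂ)) ≠ 0 := by
    have : (((φ : ℝ) : ℂ) - ((ψ : ℝ) : ℂ)) = ((√5 : ℝ) : ℂ) := by
      exact_mod_cast congrArg Complex.ofReal phi_sub_psi
    rw [this]
    exact_mod_cast sqrt5_pos.ne'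
  have hcol : ∀ c : Fin 66, c ≠ 0 → c ≠ 1 → U X τ c 0 = 0 ∧ U X τ c 1 = 0 := by
    intro c h0 h1
    have hf : ∀ r : ℂ, fn r 1 0 0 c = 0 := by
      intro r
      rw [fn_one]
      simp [h0, h1]
    have e1 := row φ phi_sq c
    have e2 := row ψ psi_sq c
    rw [hf, mul_zero] at e1 e2
    have e3 : (((φ : ℝ) : ℂ) - ((ψ : ℝ) : ℂ)) * U X τ c 1 = 0 := by linear_combination e1 - e2
    have e4 : U X τ c 1 = 0 := by
      rcases mul_eq_zero.1 e3 with h | h
      · exact absurd h hd
      · exact h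
    refine ⟨?_, e4⟩
    rw [e4, mul_zero, add_zero] at e1
    exact e1
  constructor
  · intro c h0 h1
    obtain ⟨k1, k2⟩ := hcol c h0 h1
    rw [U_symm τ 0 c, U_symm τ 1 c]
    exact ⟨k1, k2⟩
  · intro hz
    have e1 := row φ phi_sq 0
    have e2 := row ψ psi_sq 0
    have hf : ∀ r : ℂ, fn r 1 0 0 (0 : Fin 66) = 1 := by
      intro r
      rw [fn_one]
      simp
    rw [hf, mul_one, hz, mul_zero, add_zero] at e1 e2
    have h1 : Complex.exp (Complex.I * (τ * (4 + 4 * ((φ : ℝ) : ℂ)))) =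
        Complex.exp (Complex.I * (τ * (4 + 4 * ((ψ : ℝ) : ℂ)))) := e1.symm.trans e2
    rw [Complex.exp_eq_exp_iff_exists_int] at h1
    obtain ⟨n, hn⟩ := h1
    have key : ∀ p q : ℝ, Complex.I * (τ * (4 + 4 * (p : ℂ))) =
        Complex.I * (τ * (4 + 4 * (q : ℂ))) + n * (2 * Real.pi * Complex.I) → p - q = √5 →
        False := by
      intro p q hn hpq
      have h2 : (τ * (4 + 4 * p) : ℝ) = τ * (4 + 4 * q) + n * (2 * Real.pi) := by
        have h3 : Complex.I * ((τ * (4 + 4 * p) : ℝ) : ℂ) =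
            Complex.I * ((τ * (4 + 4 * q) + n * (2 * Real.pi) : ℝ) : ℂ) := by
          push_cast
          rw [hn]
          ring
        have h4 := mul_left_cancel₀ Complex.I_ne_zero h3
        exact_mod_cast h4
      have h3 : τ * (4 * √5) = n * (2 * Real.pi) := by
        rw [← hpq]
        linarith
      have h4 : √5 = n * (2 * √2) := by
        have hp := Real.pi_pos
        have h2p := sqrt2_pos
        unfold τ at h3
        field_simp at h3
        linarith
      have h5' : (5 : ℝ) = n ^ 2 * 8 := by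
        have h51 : √5 * √5 = (5 : ℝ) := Real.mul_self_sqrt (by norm_num)
        have h22 : √2 * √2 = (2 : ℝ) := Real.mul_self_sqrt (by norm_num)
        calc (5 : ℝ) = √5 * √5 := h51.symm
          _ = (n * (2 * √2)) * (n * (2 * √2)) := by rw [← h4]
          _ = n ^ 2 * 4 * (√2 * √2) := by ring
          _ = n ^ 2 * 8 := by rw [h22]; ring
      have h6 : (5 : ℤ) = n ^ 2 * 8 := by exact_mod_cast h5'
      omega
    exact key φ ψ hn phi_sub_psi

/-! ### The minimal polynomial -/

theorem not_sq5 : ¬ IsSquare (5 : ℚ) := by norm_num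

/-- The polynomial `x² - 12 x + 16`. -/
noncomputable def f : ℚ[X] := Polynomial.X ^ 2 - C 12 * Polynomial.X + C 16

theorem f_monic : f.Monic := by
  unfold f
  monicity!

theorem f_natDegree : f.natDegree = 2 := by
  unfold f
  compute_degree!

theorem f_irreducible : Irreducible f := by
  apply irreducible_of_degree_le_three_of_not_isRoot
  · rw [f_natDegree]
    simp
  · intro q hq
    unfold f at hq
    simp only [IsRoot.def, eval_add, eval_sub, eval_pow, eval_X, eval_mul, eval_C] at hq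
    apply not_sq5
    refine ⟨(q - 6) / 2, ?_⟩
    linarith

theorem aeval_f {R : Type} [CommRing R] [Algebra ℚ R] (r : R) (hr : r ^ 2 = r + 1) :
    aeval (4 + 4 * r) f = 0 := by
  unfold f
  simp only [map_add, map_sub, map_mul, map_pow, aeval_X, map_ofNat]
  linear_combination 16 * hr

theorem minpoly_eq : minpoly ℚ (4 + 4 * φ : ℝ) = f :=
  (minpoly.eq_of_irreducible_of_monic f_irreducible (aeval_f φ phi_sq) f_monic).symm

theorem not_closed : ¬ ConjClosed (Cplus X 0 1) := by
  intro h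
  have hψ : ((ψ : ℝ) : ℂ) ^ 2 = ((ψ : ℝ) : ℂ) + 1 := by
    exact_mod_cast congrArg Complex.ofReal psi_sq
  obtain ⟨θ', h1, h2⟩ := h (4 + 4 * φ) entry_phi (4 + 4 * ((ψ : ℝ) : ℂ))
    (by rw [minpoly_eq]; exact aeval_f _ hψ)
  have h3 : θ' = 4 + 4 * ψ := by
    have h4 : ((θ' : ℝ) : ℂ) = ((4 + 4 * ψ : ℝ) : ℂ) := by
      rw [h2, Complex.ofReal_add, Complex.ofReal_mul]
      norm_num
    exact_mod_cast h4
  rw [h3] at h1
  have h4 : 0 < entry X (4 + 4 * ψ) 0 1 := h1
  have h5 := entry_psi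
  linarith

/-- There is a graph with proper fractional revival on `{a, b}` for which the sets `C⁺` and `C⁻`
are not both closed under algebraic conjugates. -/
theorem result : ∃ (Y : SimpleGraph (Fin 66)) (_ : DecidableRel Y.Adj) (a b : Fin 66) (t : ℝ),
    a ≠ b ∧ ProperFRAt Y a b t ∧ ¬ (ConjClosed (Cplus Y a b) ∧ ConjClosed (Cminus Y a b)) :=
  ⟨X, inferInstance, 0, 1, τ, by decide, proper_at, fun h => not_closed h.1⟩

end Pool.Agent.Results.MP_d93d44_co.NotConjugateClosed
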